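import Pool.Agent.H92.EHD.TP
import Pool.Agent.H77.EQ.PDS

/-!
# Board MP_75a732_an (ehd_modules), row EPD (after helper77's PDS)
-/

set_option autoImplicit false

namespace Pool.Agent.H25.EHD

open scoped BigOperators ComplexConjugate ContDiff ComplexOrder
open MeasureTheory Filter Topology
open Pool.Agent.H92.EQ Pool.Agent.H92.EHD Pool.Agent.H38.EQ Pool.Agent.H77.EQ

noncomputable section

/-- Row EPD. -/
theorem pf_EPD (hPCH : T_PCH) (hD12 : T_D12) : T_EPD := by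
  classical
  intro N d m F G hN hd hF hm hG hG0
  have hd1 : 1 ≤ d := by omega
  have hIt : ∀ l, IsH (d ^ l) (iter F l) := fun l => (hD12 N d F hd1 hF 0 l).1
  have hdl : ∀ l, 1 ≤ d ^ l := fun l => Nat.one_le_pow _ _ (by omega)
  have hI0 : ∀ l, ev (iter F l) 0 = 0 := by
    intro l
    have h := ev_hom (iter F l) (hIt l).hom 0 0
    rw [smul_zero] at h
    rw [h, zero_pow (by have := hdl l; omega), zero_smul]
  have hF0 : ev F 0 = 0 := by
    have h := hI0 1
    rwa [iter_succ, iter_zero] at h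
  have hFn : ∀ z, z ≠ 0 → ev F z ≠ 0 := fun z hz h => hz (hF.nd z h)
  have hIn : ∀ l z, z ≠ 0 → ev (iter F l) z ≠ 0 := fun l z hz h => hz ((hIt l).nd z h)
  choose n a e C hC ha hne hiff hex using fun l =>
    hPCH N (d ^ l) m (iter F l) G hN (hdl l) hm (hIt l) hG hG0
  -- the zero set
  set Z : Set (Fin N → ℂ) := {z | z ≠ 0 ∧ ∀ l j, MvPolynomial.eval z (a l j) = 0} with hZ
  have hZG : ∀ z, z ∈ Z ↔ z ≠ 0 ∧ ∀ l x, ev (iter F l) x = z → MvPolynomial.eval x G = 0 := by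
    intro z
    constructor
    · rintro ⟨h1, h2⟩
      exact ⟨h1, fun l => (hiff l z h1).1 (h2 l)⟩
    · rintro ⟨h1, h2⟩
      exact ⟨h1, fun l => (hiff l z h1).2 (h2 l)⟩
  -- finitely many equations
  let Sg : ℕ → Finset (MvPolynomial (Fin N) ℂ) := fun t =>
    (Finset.range (t + 1)).biUnion fun l => Finset.univ.image (a l)
  have hSg : ∀ t p, p ∈ Sg t ↔ ∃ l ≤ t, ∃ j, a l j = p := by
    intro t p
    simp only [Sg, Finset.mem_biUnion, Finset.mem_range, Finset.mem_image, Finset.mem_univ,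
      true_and]
    constructor
    · rintro ⟨l, hl, j, hj⟩; exact ⟨l, by omega, j, hj⟩
    · rintro ⟨l, hl, j, hj⟩; exact ⟨l, by omega, j, hj⟩
  obtain ⟨t, ht⟩ : ∃ t, ∀ l, t ≤ l → Ideal.span (Sg t : Set (MvPolynomial (Fin N) ℂ)) =
      Ideal.span (Sg l : Set (MvPolynomial (Fin N) ℂ)) := by
    have hmono : Monotone fun l => Ideal.span (Sg l : Set (MvPolynomial (Fin N) ℂ)) := by
      intro l l' hll
      refine Ideal.span_mono ?_
      intro p hp
      rw [Finset.mem_coe, hSg] at hp ⊢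
      obtain ⟨i, hi, j, hj⟩ := hp
      exact ⟨i, by omega, j, hj⟩
    exact monotone_stabilizes_iff_noetherian.mpr inferInstance ⟨_, hmono⟩
  have hspan0 : ∀ (T : Set (MvPolynomial (Fin N) ℂ)) (z : Fin N → ℂ),
      (∀ p ∈ T, MvPolynomial.eval z p = 0) → ∀ p ∈ Ideal.span T, MvPolynomial.eval z p = 0 := by
    intro T z h p hp
    have h1 : Ideal.span T ≤ RingHom.ker (MvPolynomial.eval z) :=
      Ideal.span_le.mpr fun q hq => (RingHom.mem_ker).mpr (h q hq)
    exact (RingHom.mem_ker).mp (h1 hp)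
  have hZt : ∀ z, z ≠ 0 → (∀ l ≤ t, ∀ j, MvPolynomial.eval z (a l j) = 0) → z ∈ Z := by
    intro z hz h
    refine ⟨hz, fun l j => ?_⟩
    have h1 : a l j ∈ Ideal.span (Sg (max t l) : Set (MvPolynomial (Fin N) ℂ)) :=
      Ideal.subset_span (by
        rw [Finset.mem_coe, hSg]
        exact ⟨l, le_max_right _ _, j, rfl⟩)
    rw [← ht (max t l) (le_max_left _ _)] at h1
    refine hspan0 _ z ?_ _ h1
    intro p hp
    rw [Finset.mem_coe, hSg] at hp
    obtain ⟨i, hi, j', rfl⟩ := hp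
    exact h i hi j'
  -- backward invariance
  have hback : ∀ x, x ≠ 0 → ev F x ∈ Z → x ∈ Z := by
    intro x hx h
    rw [hZG] at h ⊢
    refine ⟨hx, fun l y hy => h.2 (l + 1) y ?_⟩
    rw [iter_succ, hy]
  -- forward invariance
  let Zn : ℕ → Set (Fin N → ℂ) := fun i => {z | z ≠ 0 ∧ ev (iter F i) z ∈ Z}
  have hZnm : ∀ i, Zn (i + 1) ⊆ Zn i := by
    rintro i z ⟨h1, h2⟩
    refine ⟨h1, ?_⟩
    rw [iter_succ] at h2
    exact hback _ (hIn i z h1) h2
  obtain ⟨n0, hn0⟩ : ∃ n0, MvPolynomial.vanishingIdeal ℂ (Zn n0) =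
      MvPolynomial.vanishingIdeal ℂ (Zn (n0 + 1)) := by
    have hanti : Antitone Zn := antitone_nat_of_succ_le hZnm
    have hmono : Monotone fun i => MvPolynomial.vanishingIdeal ℂ (Zn i) :=
      fun i i' hii => MvPolynomial.vanishingIdeal_anti_mono (hanti hii)
    obtain ⟨n0, h⟩ := monotone_stabilizes_iff_noetherian.mpr
      (inferInstance : IsNoetherian (MvPolynomial (Fin N) ℂ) (MvPolynomial (Fin N) ℂ))
      ⟨_, hmono⟩
    exact ⟨n0, h (n0 + 1) (Nat.le_succ _)⟩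
  have hfwd : ∀ z, z ∈ Z → ev F z ∈ Z := by
    intro z hz
    obtain ⟨x, hx, -⟩ := hex n0 z hz.1
    have hx0 : x ≠ 0 := by
      rintro rfl
      exact hz.1 (by rw [← hx, hI0])
    have hxn : x ∈ Zn n0 := ⟨hx0, by rw [hx]; exact hz⟩
    have hxv : ∀ l j, MvPolynomial.eval (ev (iter F (n0 + 1)) x) (a l j) = 0 := by
      intro l j
      have h1 : MvPolynomial.bind₁ (iter F (n0 + 1)) (a l j) ∈
          MvPolynomial.vanishingIdeal ℂ (Zn (n0 + 1)) := by
        intro y hy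
        show MvPolynomial.eval y _ = 0
        rw [ev_bind]
        exact hy.2.2 l j
      rw [← hn0] at h1
      have h2 : MvPolynomial.eval x (MvPolynomial.bind₁ (iter F (n0 + 1)) (a l j)) = 0 :=
        h1 x hxn
      rwa [ev_bind] at h2
    rw [iter_succ, hx] at hxv
    exact ⟨hFn z hz.1, hxv⟩
  -- the equations
  let S : Set (MvPolynomial (Fin N) ℂ) :=
    {p | (∃ i, p.IsHomogeneous i) ∧ ∀ z ∈ Z, MvPolynomial.eval z p = 0}
  obtain ⟨T, hTS, hspan⟩ : ∃ T : Finset (MvPolynomial (Fin N) ℂ), ↑T ⊆ S ∧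
      Ideal.span S = Ideal.span (T : Set (MvPolynomial (Fin N) ℂ)) :=
    (Submodule.fg_span_iff_fg_span_finset_subset S).mp
      ((inferInstance : IsNoetherian (MvPolynomial (Fin N) ℂ)
        (MvPolynomial (Fin N) ℂ)).noetherian _)
  let s : ℕ := T.card
  let h : Fin s → MvPolynomial (Fin N) ℂ := fun i => (T.equivFin.symm i).1
  have hhS : ∀ i, h i ∈ S := fun i => hTS (T.equivFin.symm i).2
  choose e' he' using fun i => (hhS i).1
  have hhT : ∀ p ∈ T, ∃ i, h i = p := fun p hp => ⟨T.equivFin ⟨p, hp⟩, by simp [h]⟩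
  have hmem0 : ∀ w : Fin N → ℂ, (∀ i, MvPolynomial.eval w (h i) = 0) → ∀ p ∈ S,
      MvPolynomial.eval w p = 0 := by
    intro w hw p hp
    have h1 : p ∈ Ideal.span (T : Set (MvPolynomial (Fin N) ℂ)) := by
      rw [← hspan]; exact Ideal.subset_span hp
    refine hspan0 _ w ?_ p h1
    intro q hq
    obtain ⟨i, rfl⟩ := hhT q hq
    exact hw i
  have haS : ∀ l j, a l j ∈ S := fun l j => ⟨⟨_, ha l j⟩, fun z hz => hz.2 l j⟩
  have hZh : ∀ w, w ≠ 0 → ((∀ i, MvPolynomial.eval w (h i) = 0) ↔ w ∈ Z) := by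
    intro w hw
    constructor
    · intro h1
      exact ⟨hw, fun l j => hmem0 w h1 _ (haS l j)⟩
    · intro h1 i
      exact (hhS i).2 w h1
  have hGS : G ∈ S := by
    refine ⟨⟨m, hG⟩, fun z hz => ?_⟩
    exact ((hZG z).1 hz).2 0 z (iter_zero F z)
  have hsum : ∀ x : Fin N → ℂ, ∑ q ∈ T, ‖MvPolynomial.eval x q‖ =
      ∑ i, ‖MvPolynomial.eval x (h i)‖ := by
    intro x
    rw [← Finset.sum_coe_sort T, ← T.equivFin.symm.sum_comp]
  -- lower bound for `F` on the sphere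
  have hlow : ∃ c : ℝ, 0 < c ∧ c ≤ 1 ∧ ∀ x : Fin N → ℂ, nrm x = 1 → c ≤ nrm (ev F x) := by
    by_cases hemp : ∃ x : Fin N → ℂ, nrm x = 1
    · obtain ⟨x0, hx0⟩ := hemp
      have hcont : ContinuousOn (fun x : Fin N → ℂ => nrm (ev F x)) {z | nrm z = 1} :=
        (nrm_cont.comp (ev_smooth F).continuous).continuousOn
      obtain ⟨y, hy, hmin⟩ := (sph_cpt (N := N)).exists_isMinOn ⟨x0, hx0⟩ hcont
      have hy0 : 0 < nrm (ev F y) := nrm_pos (hFn y (ne_of_nrm hy))
      refine ⟨min 1 (nrm (ev F y)), lt_min one_pos hy0, min_le_left _ _, fun x hx => ?_⟩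
      exact (min_le_right _ _).trans (hmin hx)
    · refine ⟨1, one_pos, le_rfl, fun x hx => (hemp ⟨x, hx⟩).elim⟩
  obtain ⟨c, hc0, hc1, hcF⟩ := hlow
  -- growth
  have hgrow : ∃ B : ℝ, 0 ≤ B ∧ ∀ x : Fin N → ℂ, nrm x = 1 →
      phi h e' (ev F x) ≤ B * phi h e' x := by
    have h1 : ∀ i, ∃ B : ℝ, 0 ≤ B ∧ ∀ x : Fin N → ℂ, nrm x = 1 →
        ‖MvPolynomial.eval (ev F x) (h i)‖ ≤ B * ∑ i, ‖MvPolynomial.eval x (h i)‖ := by
      intro i
      have h2 : MvPolynomial.bind₁ F (h i) ∈ S := by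
        refine ⟨⟨e' i * d, ?_⟩, fun z hz => ?_⟩
        · have h4 := (he' i).aeval F hF.hom
          rw [mul_comm] at h4
          exact h4
        · rw [ev_bind]
          exact (hhS i).2 _ (hfwd z hz)
      have h3 : MvPolynomial.bind₁ F (h i) ∈
          Ideal.span (T : Set (MvPolynomial (Fin N) ℂ)) := by
        rw [← hspan]; exact Ideal.subset_span h2
      obtain ⟨B, hB, h4⟩ := span_bound T _ h3
      refine ⟨B, hB, fun x hx => ?_⟩
      have h5 := h4 x hx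
      rwa [ev_bind, hsum] at h5
    choose B hB hB2 using h1
    refine ⟨∑ i, B i / c ^ e' i, Finset.sum_nonneg fun i _ => div_nonneg (hB i)
      (pow_nonneg hc0.le _), fun x hx => ?_⟩
    have hph : phi h e' x = ∑ i, ‖MvPolynomial.eval x (h i)‖ :=
      Finset.sum_congr rfl fun i _ => nv_unit _ _ hx
    rw [hph]
    show ∑ i, nv (h i) (e' i) (ev F x) ≤ _
    rw [Finset.sum_mul]
    refine Finset.sum_le_sum fun i _ => ?_
    have hcp : 0 < c ^ e' i := pow_pos hc0 _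
    have h2 : c ^ e' i ≤ nrm (ev F x) ^ e' i := pow_le_pow_left₀ hc0.le (hcF x hx) _
    calc nv (h i) (e' i) (ev F x) ≤ ‖MvPolynomial.eval (ev F x) (h i)‖ / c ^ e' i :=
          div_le_div_of_nonneg_left (norm_nonneg _) hcp h2
      _ ≤ (B i * ∑ i, ‖MvPolynomial.eval x (h i)‖) / c ^ e' i :=
          div_le_div_of_nonneg_right (hB2 i x hx) hcp.le
      _ = B i / c ^ e' i * ∑ i, ‖MvPolynomial.eval x (h i)‖ := by ring
  obtain ⟨B1, hB1, hgr⟩ := hgrow
  -- the exponents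
  have hNull : ∀ (κ : Fin N) (i : Fin s), ∃ A : ℕ,
      (MvPolynomial.X κ * h i) ^ A ∈ Ideal.span (Sg t : Set (MvPolynomial (Fin N) ℂ)) := by
    intro κ i
    have h1 : MvPolynomial.X κ * h i ∈ MvPolynomial.vanishingIdeal ℂ
        (MvPolynomial.zeroLocus ℂ (Ideal.span (Sg t : Set (MvPolynomial (Fin N) ℂ)))) := by
      intro x hx
      show MvPolynomial.eval x (MvPolynomial.X κ * h i) = 0
      rw [map_mul, MvPolynomial.eval_X]
      by_cases hx0 : x = 0
      · rw [hx0]; simp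
      · have h2 : x ∈ Z := by
          refine hZt x hx0 fun l hl j => ?_
          exact hx (a l j) (Ideal.subset_span (by
            rw [Finset.mem_coe, hSg]
            exact ⟨l, hl, j, rfl⟩))
        rw [(hhS i).2 x h2, mul_zero]
    rw [MvPolynomial.vanishingIdeal_zeroLocus_eq_radical] at h1
    exact h1
  choose A hA using hNull
  obtain ⟨A0, hA0⟩ : ∃ A0 : ℕ, A0 = ∑ κ, ∑ i, A κ i + 1 := ⟨_, rfl⟩
  have hA2 : ∀ κ i, (MvPolynomial.X κ * h i) ^ A0 ∈
      Ideal.span (Sg t : Set (MvPolynomial (Fin N) ℂ)) := by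
    intro κ i
    have h1 : A κ i ≤ A0 := by
      have h2 : A κ i ≤ ∑ i, A κ i :=
        Finset.single_le_sum (f := fun i => A κ i) (fun _ _ => Nat.zero_le _)
          (Finset.mem_univ i)
      have h3 : ∑ i, A κ i ≤ ∑ κ, ∑ i, A κ i :=
        Finset.single_le_sum (f := fun κ => ∑ i, A κ i) (fun _ _ => Nat.zero_le _)
          (Finset.mem_univ κ)
      omega
    exact Ideal.pow_mem_of_pow_mem _ (hA κ i) h1
  choose B2 hB2 hB3 using fun κ i => span_bound (Sg t) _ (hA2 κ i)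
  -- on the sphere
  have hsph : ∃ B : ℝ, 0 ≤ B ∧ ∀ w : Fin N → ℂ, nrm w = 1 →
      phi h e' w ^ A0 ≤ B * ∑ q ∈ Sg t, ‖MvPolynomial.eval w q‖ := by
    have hB20 : 0 ≤ ∑ κ, ∑ i, B2 κ i :=
      Finset.sum_nonneg fun κ _ => Finset.sum_nonneg fun i _ => hB2 κ i
    refine ⟨(s + 1 : ℝ) ^ A0 * ((√N) ^ A0 * ∑ κ, ∑ i, B2 κ i), by positivity,
      fun w hw => ?_⟩
    have hph : phi h e' w = ∑ i, ‖MvPolynomial.eval w (h i)‖ :=
      Finset.sum_congr rfl fun i _ => nv_unit _ _ hw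
    rw [hph]
    obtain ⟨X, hX⟩ : ∃ X : ℝ, X = ∑ q ∈ Sg t, ‖MvPolynomial.eval w q‖ := ⟨_, rfl⟩
    rw [← hX]
    have hX0 : 0 ≤ X := by rw [hX]; exact Finset.sum_nonneg fun _ _ => norm_nonneg _
    obtain ⟨κ, hκ⟩ := exists_coord hN hw
    have hone : ∀ i, ‖MvPolynomial.eval w (h i)‖ ^ A0 ≤
        (√N) ^ A0 * ((∑ κ, ∑ i, B2 κ i) * X) := by
      intro i
      have h1 := hB3 κ i w hw
      rw [← hX, map_pow, map_mul, MvPolynomial.eval_X, norm_pow, norm_mul, mul_pow] at h1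
      have h3 : B2 κ i ≤ ∑ i, B2 κ i :=
        Finset.single_le_sum (f := fun i => B2 κ i) (fun i _ => hB2 κ i)
          (Finset.mem_univ i)
      have h4 : ∑ i, B2 κ i ≤ ∑ κ, ∑ i, B2 κ i :=
        Finset.single_le_sum (f := fun κ => ∑ i, B2 κ i)
          (fun κ _ => Finset.sum_nonneg fun i _ => hB2 κ i) (Finset.mem_univ κ)
      exact one_eq hκ (Real.sqrt_nonneg _) (norm_nonneg _) hX0 (h3.trans h4) h1
    have hA0n : A0 ≠ 0 := by rw [hA0]; exact Nat.succ_ne_zero _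
    have hres := pow_sum_le hA0n (fun i => ‖MvPolynomial.eval w (h i)‖)
      (fun i => norm_nonneg _) _ (mul_nonneg (pow_nonneg (Real.sqrt_nonneg _) _)
        (mul_nonneg hB20 hX0)) hone
    refine hres.trans (le_of_eq ?_)
    rw [← mul_assoc, ← mul_assoc, ← mul_assoc]
  obtain ⟨B3, hB30, hB31⟩ := hsph
  -- the sum over the finite set of equations
  have hT0 : ∀ w : Fin N → ℂ, nrm w = 1 → ∑ q ∈ Sg t, ‖MvPolynomial.eval w q‖ ≤
      ∑ l ∈ Finset.range (t + 1), ∑ j, nv (a l j) (e l j) w := by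
    intro w hw
    refine (sum_biUnion_le' _ _ _ fun q => norm_nonneg _).trans ?_
    refine Finset.sum_le_sum fun l _ => ?_
    refine (sum_image_le' _ _ _ fun q => norm_nonneg _).trans ?_
    refine Finset.sum_le_sum fun j _ => ?_
    rw [nv_unit _ _ hw]
  have hlast : ∃ B : ℝ, 0 ≤ B ∧ ∀ z : Fin N → ℂ, z ≠ 0 → ∃ l ≤ t, ∃ x, ev (iter F l) x = z ∧
      phi h e' z ^ A0 ≤ B * nv G m x := by
    obtain ⟨Ct, hCt⟩ : ∃ Ct : ℝ, Ct = ∑ l ∈ Finset.range (t + 1), n l * C l := ⟨_, rfl⟩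
    have hCt0 : 0 ≤ Ct := by
      rw [hCt]
      exact Finset.sum_nonneg fun l _ => mul_nonneg (Nat.cast_nonneg _) (hC l).le
    refine ⟨B3 * ((t + 1) * Ct), by positivity, fun z hz => ?_⟩
    obtain ⟨lam, w, hlam, hw, rfl⟩ := exists_unit hz
    let f : ℕ → ℝ := fun l => ∑ j, nv (a l j) (e l j) w
    obtain ⟨l, hl, hmax⟩ := Finset.exists_max_image (Finset.range (t + 1)) f
      ⟨0, Finset.mem_range.mpr (Nat.succ_pos t)⟩
    obtain ⟨x, hx1, hx2⟩ := hex l (lam • w) hz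
    refine ⟨l, by have := Finset.mem_range.mp hl; omega, x, hx1, ?_⟩
    rw [phi_smul he' hlam]
    have h1 : ∑ l ∈ Finset.range (t + 1), ∑ j, nv (a l j) (e l j) w ≤ (t + 1) * f l :=
      sum_const_bound t f l hmax
    have h2 : f l ≤ Ct * nv G m x := by
      have h3 : f l ≤ n l * C l * nv G m x := by
        calc f l ≤ ∑ _j : Fin (n l), C l * nv G m x := by
              refine Finset.sum_le_sum fun j _ => ?_
              have h4 := hx2 j
              rwa [nv_smul (ha l j) hlam] at h4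
          _ = _ := by
              rw [Finset.sum_const, Finset.card_univ, Fintype.card_fin, nsmul_eq_mul,
                mul_assoc]
      refine h3.trans (mul_le_mul_of_nonneg_right ?_ (nv_nonneg _ _ _))
      rw [hCt]
      exact Finset.single_le_sum (f := fun l => (n l : ℝ) * C l)
        (fun l _ => mul_nonneg (Nat.cast_nonneg _) (hC l).le) hl
    calc phi h e' w ^ A0 ≤ B3 * ∑ q ∈ Sg t, ‖MvPolynomial.eval w q‖ := hB31 w hw
      _ ≤ B3 * ((t + 1) * (Ct * nv G m x)) := by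
          refine mul_le_mul_of_nonneg_left ?_ hB30
          refine (hT0 w hw).trans (h1.trans ?_)
          exact mul_le_mul_of_nonneg_left h2 (by positivity)
      _ = _ := by rw [← mul_assoc, ← mul_assoc, ← mul_assoc]
  obtain ⟨B4, hB4, hfin⟩ := hlast
  refine ⟨t, s, A0, h, e', 1 + B1 + B4, ⟨he', ?_, ?_, ?_, ?_⟩, ?_, ?_⟩
  · by_contra hcon
    push Not at hcon
    have h1 : G ∈ Ideal.span (T : Set (MvPolynomial (Fin N) ℂ)) := by
      rw [← hspan]; exact Ideal.subset_span hGS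
    have h2 : (T : Set (MvPolynomial (Fin N) ℂ)) ⊆ {0} := by
      intro p hp
      obtain ⟨i, rfl⟩ := hhT p hp
      exact hcon i
    have h3 := Ideal.span_mono h2 h1
    rw [Ideal.span_singleton_eq_bot.mpr rfl] at h3
    exact hG0 ((Submodule.mem_bot _).mp h3)
  · intro z hz
    rw [hZh _ (hFn z hz), hZh z hz]
    exact ⟨hback z hz, hfwd z⟩
  · exact (le_add_of_nonneg_right hB1).trans (le_add_of_nonneg_right hB4)
  · intro x hx
    obtain ⟨lam, w, hlam, hw, rfl⟩ := exists_unit hx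
    rw [ev_hom F hF.hom, phi_smul he' (pow_ne_zero _ hlam), phi_smul he' hlam]
    have hp : 0 ≤ phi h e' w := Finset.sum_nonneg fun i _ => nv_nonneg _ _ _
    refine (hgr w hw).trans (mul_le_mul_of_nonneg_right ?_ hp)
    exact (le_add_of_nonneg_left zero_le_one).trans (le_add_of_nonneg_right hB4)
  · intro z _ h0
    have h1 : G ∈ Ideal.span (T : Set (MvPolynomial (Fin N) ℂ)) := by
      rw [← hspan]; exact Ideal.subset_span hGS
    refine hspan0 _ z (fun p hp => ?_) G h1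
    obtain ⟨i, rfl⟩ := hhT p hp
    exact h0 i
  · intro z hz
    obtain ⟨l, hl, x, hx, h1⟩ := hfin z hz
    refine ⟨l, hl, x, hx, h1.trans (mul_le_mul_of_nonneg_right ?_ (nv_nonneg _ _ _))⟩
    exact le_add_of_nonneg_left (add_nonneg zero_le_one hB1)

end

end Pool.Agent.H25.EHD
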